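import Pool.Agent.Helper43.GD.St

/-!
# Project GD (MP_b3ce06_al): module RL (the commutation rule over a local ring)
-/

set_option autoImplicit false

namespace Pool.Agent.Helper26.GD

open Pool.Agent.Helper43.GD

theorem E_h {L A : Type} [CommRing L] [Group A] (Q : Fr L A) {u : Lˣ} (hu : u ∈ Q.U) (c : L) :
    Q.E c * Q.h u = Q.h u * Q.E (((u⁻¹ : Lˣ) : L) * c) := by
  have h := Q.h_E hu (((u⁻¹ : Lˣ) : L) * c)
  rw [Units.mul_inv_cancel_left] at h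
  rw [← h]; group

theorem hRL (hRR : StRR) : StRL := by
  intro L A _ _ Q hloc h2 hU a b d hd
  by_cases ha : IsUnit a
  · obtain ⟨ua, rfl⟩ := ha
    exact hRR L A Q ua d b (hU ua) (hU d) hd
  · -- the sign
    have hk : ∃ κ d₁ : Lˣ, (d₁ : L) = 1 + κ * b := by
      by_cases h1 : IsUnit (1 + b)
      · obtain ⟨d₁, hd₁⟩ := h1
        exact ⟨1, d₁, by rw [hd₁]; simp⟩
      · have h3 : IsUnit (1 - b) := by
          by_contra h3
          have h4 : (1 + b) + (1 - b) ∈ nonunits L := IsLocalRing.nonunits_add h1 h3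
          apply h4
          have h5 : (1 + b) + (1 - b) = 2 := by ring
          rw [h5]; exact h2
        obtain ⟨d₁, hd₁⟩ := h3
        exact ⟨-1, d₁, by rw [hd₁]; push_cast; ring⟩
    obtain ⟨κ, d₁, hd₁⟩ := hk
    have ha₂ : IsUnit (a - κ) := by
      by_contra h3
      have h6 : -(a - (κ : L)) ∈ nonunits L := by
        intro h7
        exact h3 (by simpa using h7.neg)
      have h4 : a + -(a - κ) ∈ nonunits L := IsLocalRing.nonunits_add ha h6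
      apply h4
      have h5 : a + -(a - (κ : L)) = κ := by ring
      rw [h5]; exact κ.isUnit
    obtain ⟨a₂, ha₂e⟩ := ha₂
    have hr1 := hRR L A Q κ d₁ b (hU _) (hU _) hd₁
    have hdd : (((d₁⁻¹ * d : Lˣ)) : L) = 1 + a₂ * (((d₁⁻¹ : Lˣ) : L) * b) := by
      have h5 : (d : L) = d₁ + a₂ * b := by rw [hd, hd₁, ha₂e]; ring
      rw [Units.val_mul, h5, mul_add, Units.inv_mul]
      ring
    have hr2 := hRR L A Q a₂ (d₁⁻¹ * d) (((d₁⁻¹ : Lˣ) : L) * b) (hU _) (hU _) hdd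
    have e1 : ((((d₁⁻¹ * d)⁻¹ : Lˣ)) : L) = (d₁ : L) * ((d⁻¹ : Lˣ) : L) := by
      rw [mul_inv, inv_inv, Units.val_mul]
    have e2 : (d₁ : L) * ((d⁻¹ : Lˣ) : L) * (((d₁⁻¹ : Lˣ) : L) * b) = ((d⁻¹ : Lˣ) : L) * b := by
      have := d₁.mul_inv
      linear_combination (((d⁻¹ : Lˣ) : L) * b) * this
    rw [e1, e2] at hr2
    have ea : a = (a₂ : L) + κ := by rw [ha₂e]; ring
    have hh : Q.h d = Q.h (d₁⁻¹ * d) * Q.h d₁ := by
      rw [← Q.h_mul (hU _) (hU _)]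
      congr 1
      rw [mul_comm, mul_inv_cancel_left]
    have hc : Q.h d₁ * Q.h (d₁⁻¹ * d) = Q.h (d₁⁻¹ * d) * Q.h d₁ := Q.h_comm (hU _) (hU _)
    have e3 : Q.E ((d₁ : L) * ((d⁻¹ : Lˣ) : L) * a₂) * (Q.h d₁ * Q.h d₁)
        = (Q.h d₁ * Q.h d₁) * Q.E (((d₁⁻¹ : Lˣ) : L) * ((d⁻¹ : Lˣ) : L) * a₂) := by
      rw [← mul_assoc, E_h Q (hU d₁), mul_assoc, E_h Q (hU d₁), ← mul_assoc]
      congr 2
      have := d₁.inv_mul
      linear_combination (((d₁⁻¹ : Lˣ) : L) * ((d⁻¹ : Lˣ) : L) * a₂) * this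
    have e4 : Q.E (((d₁⁻¹ : Lˣ) : L) * ((d⁻¹ : Lˣ) : L) * a₂) * Q.E (((d₁⁻¹ : Lˣ) : L) * κ)
        = Q.E (((d⁻¹ : Lˣ) : L) * a) := by
      rw [← Q.Eadd]
      congr 1
      have h6 := d₁.inv_mul
      have h7 := d.inv_mul
      have h8 : (a₂ : L) = a - κ := ha₂e
      rw [h8]
      have h9 : ((d₁⁻¹ : Lˣ) : L) * (1 + κ * b) = 1 := by rw [← hd₁]; exact h6
      have h10 : ((d⁻¹ : Lˣ) : L) * (1 + a * b) = 1 := by rw [← hd]; exact h7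
      linear_combination (-((d₁⁻¹ : Lˣ) : L) * κ) * h10 + (((d⁻¹ : Lˣ) : L) * a) * h9
    calc Q.E a * Q.F b = Q.E (a₂ : L) * (Q.E (κ : L) * Q.F b) := by
          rw [← mul_assoc, ← Q.Eadd, ← ea]
      _ = (Q.E (a₂ : L) * Q.F (((d₁⁻¹ : Lˣ) : L) * b)) * (Q.h d₁ * Q.h d₁) *
            Q.E (((d₁⁻¹ : Lˣ) : L) * κ) := by
          rw [hr1]; simp only [mul_assoc]
      _ = Q.F (((d⁻¹ : Lˣ) : L) * b) * (Q.h (d₁⁻¹ * d) * Q.h (d₁⁻¹ * d)) *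
            (Q.E ((d₁ : L) * ((d⁻¹ : Lˣ) : L) * a₂) * (Q.h d₁ * Q.h d₁)) *
            Q.E (((d₁⁻¹ : Lˣ) : L) * κ) := by
          rw [hr2]; simp only [mul_assoc]
      _ = Q.F (((d⁻¹ : Lˣ) : L) * b) * (Q.h (d₁⁻¹ * d) * (Q.h (d₁⁻¹ * d) * Q.h d₁) * Q.h d₁) *
            (Q.E (((d₁⁻¹ : Lˣ) : L) * ((d⁻¹ : Lˣ) : L) * a₂) * Q.E (((d₁⁻¹ : Lˣ) : L) * κ)) := by
          rw [e3]; simp only [mul_assoc]
      _ = Q.F (((d⁻¹ : Lˣ) : L) * b) * (Q.h d * Q.h d) * Q.E (((d⁻¹ : Lˣ) : L) * a) := by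
          rw [e4, ← hc, hh]; simp only [mul_assoc]

end Pool.Agent.Helper26.GD
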